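import Pool.Agent.H45.TR.Minor
import Pool.Agent.H77.Q.Defs

set_option autoImplicit false

/-!
From the sides of the words of a code to the sides of the words of its minors at a root
(MP_a46c6f_co, full Q1).
-/

namespace Pool.Agent.H46.Q

open Finset Pool.Agent.H98.Code Pool.Agent.H26.TR Pool.Agent.H45.TR

variable {V : Type} [Fintype V] [DecidableEq V]

/-- `S u Y`: `Y` is the set of own places of one side of the word `u` -/
structure Sides (L : Submodule (ZMod 2) (V → K)) (S : (V → K) → Finset V → Prop) : Prop where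
  mem : ∀ u Y, S u Y → u ∈ L ∧ ZFree u ∧ ∀ v ∈ Y, u v = 0
  ex : ∀ u ∈ L, ZFree u → ∃ Y, S u Y
  compl : ∀ u Y, S u Y → S u (univ.filter (fun v => u v = 0 ∧ v ∉ Y))
  part : ∀ u Y, S u Y → ∀ k ∈ L, (∀ v, u v ≠ 0 → k v = 0 ∨ k v = u v) →
    ∃ k' ∈ L, (∀ v ∈ Y, k' v = k v) ∧ (∀ v, u v = 0 → v ∉ Y → k' v = 0) ∧
      (∀ v, u v ≠ 0 → k' v = 0 ∨ k' v = u v) ∧
      (ZFree k' → ∃ Y', Y' ⊆ Y ∧ S k' Y') ∧ (ZFree (k' + u) → ∃ Y', Y' ⊆ Y ∧ S (k' + u) Y')
  wc : ∀ u, S u ∅ → u ≠ 0 → ∃ g, Splits L u g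

variable {L : Submodule (ZMod 2) (V → K)} {e : V} {D : V → K} {P Q : Finset (Finset V)}
  {h : Finset V → V} {S : (V → K) → Finset V → Prop}

theorem add_self_K (a : K) : a + a = 0 := by revert a; decide

/-- `u` is a lift of `a` -/
def IsLift (L : Submodule (ZMod 2) (V → K)) (D : V → K) (Q : Finset (Finset V))
    (h : Finset V → V) (u : V → K) (a : W Q → K) : Prop :=
  u ∈ L ∧ (∀ v, v ∉ Set.range (Subtype.val : W Q → V) → kf (u v) (sg D Q h v) = 0) ∧
    a = fun w => u w.1

theorem IsLift.add {u u' : V → K} {a a' : W Q → K} (hu : IsLift L D Q h u a)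
    (hu' : IsLift L D Q h u' a') : IsLift L D Q h (u + u') (a + a') := by
  refine ⟨L.add_mem hu.1 hu'.1, ?_, ?_⟩
  · intro v hv
    have h1 := hu.2.1 v hv
    have h2 := hu'.2.1 v hv
    simp only [kf, Pi.add_apply, Prod.fst_add, Prod.snd_add] at *
    linear_combination h1 + h2
  · rw [hu.2.2, hu'.2.2]
    rfl

theorem IsLift.mem {u : V → K} {a : W Q → K} (hu : IsLift L D Q h u a) : a ∈ N L D Q h :=
  ⟨u, hu.1, hu.2.1, hu.2.2⟩

section
variable (hiso : ∀ u ∈ L, ∀ w ∈ L, form u w = 0) (hP : Parts L e D P) (hQ : Q ⊆ P)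
  (hl : ∀ v, v ≠ e → (D v).1 = 1) (hh : ∀ M ∈ Q, h M ∈ M) (heW : ∀ M ∈ Q, e ∉ M)

include hiso hP hQ hl hh in
/-- the lift of the zero word with `0` at the root is zero -/
theorem lift_zero {u : V → K} (hu : IsLift L D Q h u 0) (hue : u e = 0) : u = 0 := by
  have hue1 : (u e).1 = 0 := by rw [hue]; rfl
  have hX : ∀ v, (∀ M ∈ Q, v ∉ M) → u v = 0 := by
    intro v hv
    have := congrFun hu.2.2 ⟨v, hv⟩
    exact this.symm
  have hle : ∀ v, v ∉ Set.range (Subtype.val : W Q → V) → u v = 0 ∨ u v = D v :=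
    fun v hv => le_D hiso hP hQ hl hh hu.1 hue1 hu.2.1 hv
  have hKD : KD L D e u := by
    refine ⟨hu.1, ?_, Or.inl hue⟩
    intro v hv
    by_cases hvW : v ∈ Set.range (Subtype.val : W Q → V)
    · exact Or.inl (hX v ((mem_range_iff Q v).1 hvW))
    · exact hle v hvW
  funext v
  by_cases hvW : v ∈ Set.range (Subtype.val : W Q → V)
  · exact hX v ((mem_range_iff Q v).1 hvW)
  · obtain ⟨M, hM, hvM⟩ := (nmem_range_iff Q v).1 hvW
    have hve : v ≠ e := fun h0 => hP.nmem M (hQ hM) (h0 ▸ hvM)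
    have hh0 : u (h M) = 0 := eq_zero_h hiso hP hQ hl hh hu.1 hue1 hu.2.1 hM
    rcases hP.union u hKD M (hQ hM) with h1 | h1
    · exact absurd hh0 (Pool.Agent.H26.TR.mem_sup.1 (h1 (hh M hM))).2
    · by_contra hne
      exact Finset.disjoint_left.1 h1 hvM (Pool.Agent.H26.TR.mem_sup.2 ⟨hve, hne⟩)

include hiso hP hQ hl hh in
/-- lifts with `0` at the root are unique -/
theorem lift_unique {u u' : V → K} {a : W Q → K} (hu : IsLift L D Q h u a)
    (hu' : IsLift L D Q h u' a) (hue : u e = 0) (hue' : u' e = 0) : u = u' := by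
  have h1 := hu.add hu'
  have haa : a + a = 0 := by
    funext w
    exact add_self_K _
  rw [haa] at h1
  have h2 := lift_zero hiso hP hQ hl hh h1 (by rw [Pi.add_apply, hue, hue', add_zero])
  funext v
  have h3 := congrFun h2 v
  have h4 : u v + u' v = 0 := h3
  have h5 : u v + u' v + u' v = u' v := by rw [h4, zero_add]
  rwa [add_assoc, add_self_K, add_zero] at h5

include hP hQ hl in
/-- a lift is `z`-free outside -/
theorem lift_zfree {u : V → K} {a : W Q → K} (hu : IsLift L D Q h u a) (ha : ZFree a) :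
    ZFree u := by
  intro v
  by_cases hvW : v ∈ Set.range (Subtype.val : W Q → V)
  · obtain ⟨w, rfl⟩ := hvW
    have := ha w
    rw [hu.2.2] at this
    exact this
  · obtain ⟨M, hM, hvM⟩ := (nmem_range_iff Q v).1 hvW
    have hve : v ≠ e := fun h0 => hP.nmem M (hQ hM) (h0 ▸ hvM)
    have h1 := hu.2.1 v hvW
    rw [kf_eq_zero_iff _ _ (sg_ne_zero hl hve)] at h1
    intro h2
    rcases h1 with h1 | h1
    · rw [h2] at h1; exact absurd h1 (by decide)
    · have h3 := sg_fst (Q := Q) (h := h) hl hve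
      rw [← h1, h2] at h3
      exact absurd h3 (by decide)

include hiso hP hQ hl hh heW in
/-- splittings go down to the minor -/
theorem split_down {u : V → K} {a : W Q → K} (hu : IsLift L D Q h u a) (hue : u e = 0)
    (hs : ∃ g, Splits L u g) : ∃ g, Splits (N L D Q h) a g := by
  classical
  obtain ⟨huL, hus, rfl⟩ := hu
  obtain ⟨g, c₁, hc₁, c₂, hc₂, hsum, hg1, hg2, hd⟩ := hs
  have hv1 : ∀ v, v ≠ g → c₁ v = 0 ∨ c₁ v = u v := by
    intro v hv
    rcases hd v hv with h1 | h1
    · exact Or.inl h1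
    · right
      rw [← hsum, Pi.add_apply, h1, add_zero]
  have hv2 : ∀ v, v ≠ g → c₂ v = 0 ∨ c₂ v = u v := by
    intro v hv
    rcases hd v hv with h1 | h1
    · right
      rw [← hsum, Pi.add_apply, h1, zero_add]
    · exact Or.inl h1
  have hgW : g ∈ Set.range (Subtype.val : W Q → V) := by
    by_contra hgW
    obtain ⟨M, hM, hgM⟩ := (nmem_range_iff Q g).1 hgW
    have hge : g ≠ e := fun h0 => heW M hM (h0 ▸ hgM)
    have key : ∀ c : V → K, c ∈ L → c g = z → (∀ v, v ≠ g → c v = 0 ∨ c v = u v) →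
        g ≠ h M ∧ c (h M) ≠ 0 := by
      intro c hc hcg hcv
      have hce : c e = 0 := by
        rcases hcv e (Ne.symm hge) with h1 | h1
        · exact h1
        · rw [h1, hue]
      have h0 := hiso c hc _ (hP.word M (hQ hM))
      unfold form at h0
      rw [← Finset.add_sum_erase _ _ (Finset.mem_univ g)] at h0
      have hg3 : kf (c g) (pw D e M g) = 1 := by
        unfold pw
        rw [if_neg hge, if_pos hgM, hcg, kf_z_left]
        exact hl g hge
      rw [hg3] at h0
      by_contra hcon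
      have hrest : ∑ x ∈ Finset.univ.erase g, kf (c x) (pw D e M x) = 0 := by
        apply Finset.sum_eq_zero
        intro x hx
        have hxg : x ≠ g := Finset.ne_of_mem_erase hx
        by_cases hxe : x = e
        · rw [hxe, hce, kf_zero_left]
        · unfold pw
          rw [if_neg hxe]
          by_cases hxM : x ∈ M
          · rw [if_pos hxM]
            by_cases hxh : x = h M
            · have hc0 : c (h M) = 0 := by
                by_contra hne
                apply hcon
                exact ⟨fun h1 => hxg (hxh.trans h1.symm), hne⟩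
              rw [hxh, hc0, kf_zero_left]
            · rcases hcv x hxg with h1 | h1
              · rw [h1, kf_zero_left]
              · rw [h1, ← sg_ne hP hQ hh hM hxM hxh]
                exact hus x ((nmem_range_iff Q x).2 ⟨M, hM, hxM⟩)
          · rw [if_neg hxM, kf_zero_right]
      rw [hrest] at h0
      exact absurd h0 (by decide)
    obtain ⟨h1, h2⟩ := key c₁ hc₁ hg1 hv1
    obtain ⟨_, h3⟩ := key c₂ hc₂ hg2 hv2
    rcases hd (h M) (Ne.symm h1) with h4 | h4
    · exact h2 h4
    · exact h3 h4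
  obtain ⟨g', rfl⟩ := hgW
  have hin : ∀ c : V → K, (∀ v, v ≠ (g' : V) → c v = 0 ∨ c v = u v) →
      ∀ v, v ∉ Set.range (Subtype.val : W Q → V) → kf (c v) (sg D Q h v) = 0 := by
    intro c hc v hv
    have hne : v ≠ (g' : V) := by
      rintro rfl
      exact hv ⟨g', rfl⟩
    rcases hc v hne with h1 | h1
    · rw [h1, kf_zero_left]
    · rw [h1]; exact hus v hv
  refine ⟨g', fun w => c₁ w, ⟨c₁, hc₁, hin c₁ hv1, rfl⟩, fun w => c₂ w,
    ⟨c₂, hc₂, hin c₂ hv2, rfl⟩, ?_, hg1, hg2, ?_⟩
  · funext w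
    exact congrFun hsum w
  · intro w hw
    exact hd w (fun h0 => hw (Subtype.ext h0))

end

/-- the sides of the words of the minor -/
def SB (L : Submodule (ZMod 2) (V → K)) (e : V) (D : V → K) (Q : Finset (Finset V))
    (h : Finset V → V) (S : (V → K) → Finset V → Prop) (a : W Q → K) (Y : Finset (W Q)) : Prop :=
  ∃ u Z, S u Z ∧ IsLift L D Q h u a ∧ u e = 0 ∧ e ∉ Z ∧ (∀ v ∈ Z, ∀ M ∈ Q, v ∉ M) ∧
    ∀ w : W Q, w ∈ Y ↔ w.1 ∈ Z

section
variable (hiso : ∀ u ∈ L, ∀ w ∈ L, form u w = 0) (hP : Parts L e D P) (hQ : Q ⊆ P)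
  (hl : ∀ v, v ≠ e → (D v).1 = 1) (hh : ∀ M ∈ Q, h M ∈ M) (heW : ∀ M ∈ Q, e ∉ M)

include hiso hP hQ hl hh in
/-- a word of the minor which is `≤ a` on the support of `a` lifts to a word `≤ u` on the support -/
theorem lift_le {u k : V → K} {a b : W Q → K} (hu : IsLift L D Q h u a) (hue : u e = 0)
    (hk : IsLift L D Q h k b) (hba : ∀ w, a w ≠ 0 → b w = 0 ∨ b w = a w) :
    ∀ v, u v ≠ 0 → k v = 0 ∨ k v = u v := by
  intro v hv
  have hue1 : (u e).1 = 0 := by rw [hue]; rfl
  by_cases hvW : v ∈ Set.range (Subtype.val : W Q → V)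
  · obtain ⟨w, rfl⟩ := hvW
    have h1 := hba w
    rw [hu.2.2, hk.2.2] at h1
    exact h1 hv
  · obtain ⟨M, hM, hvM⟩ := (nmem_range_iff Q v).1 hvW
    have hve : v ≠ e := fun h0 => hP.nmem M (hQ hM) (h0 ▸ hvM)
    have hne : v ≠ h M := by
      rintro rfl
      exact hv (eq_zero_h hiso hP hQ hl hh hu.1 hue1 hu.2.1 hM)
    have h1 := le_D hiso hP hQ hl hh hu.1 hue1 hu.2.1 hvW
    have h2 := hk.2.1 v hvW
    rw [kf_eq_zero_iff _ _ (sg_ne_zero hl hve), sg_ne hP hQ hh hM hvM hne] at h2
    rcases h1 with h1 | h1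
    · exact absurd h1 hv
    · rw [h1]; exact h2

/-- the part of a word on a side inside the minor is a word of the minor -/
theorem part_lift {u k' : V → K} {a : W Q → K} {Z : Finset V} (hu : IsLift L D Q h u a)
    (hZ : ∀ v ∈ Z, ∀ M ∈ Q, v ∉ M) (hk' : k' ∈ L)
    (h2 : ∀ v, u v = 0 → v ∉ Z → k' v = 0) (h3 : ∀ v, u v ≠ 0 → k' v = 0 ∨ k' v = u v) :
    IsLift L D Q h k' (fun w => k' w.1) := by
  refine ⟨hk', ?_, rfl⟩
  intro v hv
  obtain ⟨M, hM, hvM⟩ := (nmem_range_iff Q v).1 hv
  by_cases huv : u v = 0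
  · rw [h2 v huv (fun hvZ => hZ v hvZ M hM hvM), kf_zero_left]
  · rcases h3 v huv with h4 | h4
    · rw [h4, kf_zero_left]
    · rw [h4]; exact hu.2.1 v hv

theorem fin_SB {k : V → K} {b : W Q → K} {Z Z' : Finset V} {Y : Finset (W Q)}
    (hS : Sides L S) (hk : IsLift L D Q h k b) (hke : k e = 0) (hb0 : b ≠ 0)
    (hsd : (∃ g, Splits L k g) → ∃ g, Splits (N L D Q h) b g)
    (heZ : e ∉ Z) (hZQ : ∀ v ∈ Z, ∀ M ∈ Q, v ∉ M) (hY : ∀ w : W Q, w ∈ Y ↔ w.1 ∈ Z)
    (hZ' : Z' ⊆ Z) (hSk : S k Z') :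
    (∃ g, Splits (N L D Q h) b g) ∨ ∃ Y', Y' ⊆ Y ∧ Y'.Nonempty ∧ SB L e D Q h S b Y' := by
  classical
  by_cases hsp : ∃ g, Splits (N L D Q h) b g
  · exact Or.inl hsp
  right
  have hk0 : k ≠ 0 := by
    rintro rfl
    apply hb0
    rw [hk.2.2]
    rfl
  have hne : Z'.Nonempty := by
    rw [Finset.nonempty_iff_ne_empty]
    rintro rfl
    exact hsp (hsd (hS.wc k hSk hk0))
  obtain ⟨v, hv⟩ := hne
  refine ⟨Z'.subtype (fun v => ∀ M ∈ Q, v ∉ M), ?_, ⟨⟨v, hZQ v (hZ' hv)⟩, ?_⟩, k, Z', hSk, hk,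
    hke, fun h0 => heZ (hZ' h0), fun v hv => hZQ v (hZ' hv), ?_⟩
  · intro w hw
    rw [Finset.mem_subtype] at hw
    exact (hY w).2 (hZ' hw)
  · rw [Finset.mem_subtype]
    exact hv
  · intro w
    rw [Finset.mem_subtype]

include hiso hP hQ hl hh heW in
/-- **from sides in the code to rooted sides in the minor** -/
theorem rsides (hS : Sides L S) :
    Pool.Agent.H77.Q.RSides (N L D Q h) (⟨e, heW⟩ : W Q) (SB L e D Q h S) := by
  classical
  refine ⟨?_, ?_, ?_, ?_, ?_⟩
  · rintro a Y ⟨u, Z, hZS, hlift, hue, heZ, hZQ, hY⟩ he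
    exact heZ ((hY _).1 he)
  · rintro a Y ⟨u, Z, hZS, hlift, hue, heZ, hZQ, hY⟩ v hv
    rw [hlift.2.2]
    exact (hS.mem u Z hZS).2.2 _ ((hY v).1 hv)
  · rintro a ha haz hae ha0 hirr
    obtain ⟨u, huL, hus, hau⟩ := ha
    have hu : IsLift L D Q h u a := ⟨huL, hus, hau⟩
    have hue : u e = 0 := by rw [hau] at hae; exact hae
    have hue1 : (u e).1 = 0 := by rw [hue]; rfl
    have huz : ZFree u := lift_zfree hP hQ hl hu haz
    obtain ⟨Z, hZ, heZ⟩ : ∃ Z, S u Z ∧ e ∉ Z := by
      obtain ⟨Z0, hZ0⟩ := hS.ex u huL huz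
      by_cases he : e ∈ Z0
      · refine ⟨_, hS.compl u Z0 hZ0, ?_⟩
        intro h0
        exact (Finset.mem_filter.1 h0).2.2 he
      · exact ⟨Z0, hZ0, he⟩
    by_cases hsp : ∃ g, Splits (N L D Q h) a g
    · exact Or.inl hsp
    have hZQ : ∀ v ∈ Z, ∀ M ∈ Q, v ∉ M := by
      intro v hv M hM hvM
      have hve : v ≠ e := fun h0 => heZ (h0 ▸ hv)
      have hmL : pw D e M ∈ L := hP.word M (hQ hM)
      have hm1 : ∀ w, w ≠ e → w ∉ M → pw D e M w = 0 := by
        intro w hw hwM
        unfold pw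
        rw [if_neg hw, if_neg hwM]
      have hm2 : ∀ w, w ∈ M → pw D e M w = D w := by
        intro w hwM
        have hw : w ≠ e := fun h0 => hP.nmem M (hQ hM) (h0 ▸ hwM)
        unfold pw
        rw [if_neg hw, if_pos hwM]
      have hm3 : pw D e M e = z := by
        unfold pw
        rw [if_pos rfl]
      have hout : ∀ w, ∀ M' ∈ Q, w ∈ M' → u w = 0 ∨ u w = D w := by
        intro w M' hM' hwM'
        exact le_D hiso hP hQ hl hh huL hue1 hus ((nmem_range_iff Q w).2 ⟨M', hM', hwM'⟩)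
      have hhz : ∀ M' ∈ Q, u (h M') = 0 := fun M' hM' =>
        eq_zero_h hiso hP hQ hl hh huL hue1 hus hM'
      have hle : ∀ w, u w ≠ 0 → pw D e M w = 0 ∨ pw D e M w = u w := by
        intro w hw
        have hwe : w ≠ e := by
          rintro rfl
          exact hw hue
        by_cases hwM : w ∈ M
        · right
          rw [hm2 w hwM]
          rcases hout w M hM hwM with h1 | h1
          · exact absurd h1 hw
          · exact h1.symm
        · exact Or.inl (hm1 w hwe hwM)
      obtain ⟨κ, hκL, hκ1, hκ2, hκ3, _, _⟩ := hS.part u Z hZ _ hmL hle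
      have hκe : κ e = 0 := hκ2 e hue heZ
      have hκv : κ v = D v := by rw [hκ1 v hv, hm2 v hvM]
      have hDv : D v ≠ 0 := by
        intro h0
        have := hl v hve
        rw [h0] at this
        exact absurd this (by decide)
      have huv : u v = 0 := (hS.mem u Z hZ).2.2 v hv
      -- on the smoothed parts
      have hκD : ∀ w, ∀ M' ∈ Q, w ∈ M' → κ w = 0 ∨ κ w = D w := by
        intro w M' hM' hwM'
        have hwe : w ≠ e := fun h0 => hP.nmem M' (hQ hM') (h0 ▸ hwM')
        by_cases hw0 : u w = 0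
        · by_cases hwZ : w ∈ Z
          · rw [hκ1 w hwZ]
            by_cases hwM : w ∈ M
            · exact Or.inr (hm2 w hwM)
            · exact Or.inl (hm1 w hwe hwM)
          · exact Or.inl (hκ2 w hw0 hwZ)
        · rcases hκ3 w hw0 with h1 | h1
          · exact Or.inl h1
          · right
            rw [h1]
            rcases hout w M' hM' hwM' with h2 | h2
            · exact absurd h2 hw0
            · exact h2
      -- on the kept places
      have hκX : ∀ w, (∀ M' ∈ Q, w ∉ M') → κ w = 0 ∨ κ w = u w := by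
        intro w hw
        by_cases hw0 : u w = 0
        · left
          by_cases hwZ : w ∈ Z
          · have hwe : w ≠ e := fun h0 => heZ (h0 ▸ hwZ)
            rw [hκ1 w hwZ, hm1 w hwe (hw M hM)]
          · exact hκ2 w hw0 hwZ
        · exact hκ3 w hw0
      have hκh : ∀ M' ∈ Q, M' ≠ M → κ (h M') = 0 := by
        intro M' hM' hne
        have hhM : h M' ∉ M := Finset.disjoint_left.1 (hP.disj M' (hQ hM') M (hQ hM) hne) (hh M' hM')
        have hhe : h M' ≠ e := fun h0 => hP.nmem M' (hQ hM') (h0 ▸ hh M' hM')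
        by_cases hwZ : h M' ∈ Z
        · rw [hκ1 _ hwZ, hm1 _ hhe hhM]
        · exact hκ2 _ (hhz M' hM') hwZ
      have hcan : ∀ x : V → K, (∀ w, ∀ M' ∈ Q, w ∈ M' → x w = 0 ∨ x w = D w) →
          (∀ M' ∈ Q, x (h M') = 0) →
          ∀ w, w ∉ Set.range (Subtype.val : W Q → V) → kf (x w) (sg D Q h w) = 0 := by
        intro x hx hxh w hw
        obtain ⟨M', hM', hwM'⟩ := (nmem_range_iff Q w).1 hw
        have hwe : w ≠ e := fun h0 => hP.nmem M' (hQ hM') (h0 ▸ hwM')
        by_cases hwh : w = h M'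
        · rw [hwh, hxh M' hM', kf_zero_left]
        · rw [kf_eq_zero_iff _ _ (sg_ne_zero hl hwe), sg_ne hP hQ hh hM' hwM' hwh]
          exact hx w M' hM' hwM'
      by_cases hκM : κ (h M) = 0
      · have hlift : IsLift L D Q h κ (fun w => κ w.1) := by
          refine ⟨hκL, hcan κ hκD ?_, rfl⟩
          intro M' hM'
          by_cases hMM : M' = M
          · rw [hMM]; exact hκM
          · exact hκh M' hM' hMM
        rcases hirr _ hlift.mem (by
          intro w
          rw [hau]
          exact hκX w.1 w.2) with h1 | h1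
        · rw [h1] at hlift
          have h2 := lift_zero hiso hP hQ hl hh hlift hκe
          rw [h2] at hκv
          exact hDv hκv.symm
        · rw [h1] at hlift
          have h2 := lift_unique hiso hP hQ hl hh hlift hu hκe hue
          rw [h2, huv] at hκv
          exact hDv hκv.symm
      · have hκhM : κ (h M) = D (h M) := by
          rcases hκD (h M) M hM (hh M hM) with h1 | h1
          · exact absurd h1 hκM
          · exact h1
        have hlift : IsLift L D Q h (κ + pw D e M) (fun w => (κ + pw D e M) w.1) := by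
          refine ⟨L.add_mem hκL hmL, hcan _ ?_ ?_, rfl⟩
          · intro w M' hM' hwM'
            have hwe : w ≠ e := fun h0 => hP.nmem M' (hQ hM') (h0 ▸ hwM')
            rw [Pi.add_apply]
            by_cases hwM : w ∈ M
            · rw [hm2 w hwM]
              rcases hκD w M' hM' hwM' with h1 | h1
              · right; rw [h1, zero_add]
              · left; rw [h1, add_self_K]
            · rw [hm1 w hwe hwM, add_zero]
              exact hκD w M' hM' hwM'
          · intro M' hM'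
            rw [Pi.add_apply]
            by_cases hMM : M' = M
            · rw [hMM, hκhM, hm2 _ (hh M hM), add_self_K]
            · have hhM : h M' ∉ M :=
                Finset.disjoint_left.1 (hP.disj M' (hQ hM') M (hQ hM) hMM) (hh M' hM')
              have hhe : h M' ≠ e := fun h0 => hP.nmem M' (hQ hM') (h0 ▸ hh M' hM')
              rw [hκh M' hM' hMM, hm1 _ hhe hhM, add_zero]
        have hlift' := hlift.add hu
        apply hsp
        refine ⟨⟨e, heW⟩, _, hlift.mem, _, hlift'.mem, ?_, ?_, ?_, ?_⟩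
        · rw [← add_assoc]
          have : (fun w : W Q => (κ + pw D e M) w.1) + (fun w : W Q => (κ + pw D e M) w.1) = 0 := by
            funext w
            exact add_self_K _
          rw [this, zero_add]
        · show κ e + pw D e M e = z
          rw [hκe, hm3, zero_add]
        · show (κ e + pw D e M e) + a ⟨e, heW⟩ = z
          rw [hκe, hm3, hae, zero_add, add_zero]
        · intro w hw
          have hwe : w.1 ≠ e := fun h0 => hw (Subtype.ext h0)
          have hmw : pw D e M w.1 = 0 := hm1 _ hwe (w.2 M hM)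
          have haw : a w = u w.1 := by rw [hau]
          rcases hκX w.1 w.2 with h1 | h1
          · left
            show κ w.1 + pw D e M w.1 = 0
            rw [h1, hmw, add_zero]
          · right
            show (κ w.1 + pw D e M w.1) + a w = 0
            rw [h1, hmw, add_zero, haw, add_self_K]
    right
    have h0 := fin_SB (e := e) (Y := Z.subtype (fun v => ∀ M ∈ Q, v ∉ M)) hS hu hue ha0
      (split_down hiso hP hQ hl hh heW hu hue) heZ hZQ
      (fun w => by rw [Finset.mem_subtype]) (Finset.Subset.refl Z) hZ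
    rcases h0 with h0 | ⟨Y', _, hne, hSB⟩
    · exact absurd h0 hsp
    · exact ⟨Y', hne, hSB⟩
  · rintro a Y ⟨u, Z, hZS, hlift, hue, heZ, hZQ, hY⟩ b hb hba
    obtain ⟨k, hkL, hks, hbk⟩ := hb
    have hk : IsLift L D Q h k b := ⟨hkL, hks, hbk⟩
    have hle := lift_le hiso hP hQ hl hh hlift hue hk hba
    obtain ⟨k', hk'L, h1, h2, h3, _, _⟩ := hS.part u Z hZS k hkL hle
    have hk' := part_lift hlift hZQ hk'L h2 h3
    refine ⟨fun w => k' w.1, hk'.mem, ?_, ?_, ?_⟩
    · intro w hw
      rw [hbk]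
      exact h1 _ ((hY w).1 hw)
    · intro w hw hwY
      rw [hlift.2.2] at hw
      exact h2 _ hw (fun h0 => hwY ((hY w).2 h0))
    · intro w hw
      rw [hlift.2.2] at hw ⊢
      exact h3 _ hw
  · rintro a Y ⟨u, Z, hZS, hlift, hue, heZ, hZQ, hY⟩ hirr b hb hbz hb0 hbirr hba hboff
    obtain ⟨k, hkL, hks, hbk⟩ := hb
    have hk : IsLift L D Q h k b := ⟨hkL, hks, hbk⟩
    have hke : k e = 0 := by
      have h1 := hboff ⟨e, heW⟩ (by rw [hlift.2.2]; exact hue) (fun h0 => heZ ((hY _).1 h0))
      rw [hbk] at h1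
      exact h1
    have hkz : ZFree k := lift_zfree hP hQ hl hk hbz
    have hle := lift_le hiso hP hQ hl hh hlift hue hk hba
    obtain ⟨k', hk'L, h1, h2, h3, h4, h5⟩ := hS.part u Z hZS k hkL hle
    have hk' := part_lift hlift hZQ hk'L h2 h3
    have hk'e : k' e = 0 := h2 e hue heZ
    have hsum := hk'.add hk
    have hse : (k' + k) e = 0 := by rw [Pi.add_apply, hk'e, hke, add_zero]
    have hfin : ∀ Z', Z' ⊆ Z → S k Z' →
        (∃ g, Splits (N L D Q h) b g) ∨ ∃ Y', Y' ⊆ Y ∧ Y'.Nonempty ∧ SB L e D Q h S b Y' :=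
      fun Z' hZ' hSk => fin_SB hS hk hke hb0 (split_down hiso hP hQ hl hh heW hk hke) heZ hZQ hY
        hZ' hSk
    rcases hirr _ hsum.mem (by
      intro w
      have haw : a w = u w.1 := by rw [hlift.2.2]
      have hbw : b w = k w.1 := by rw [hbk]
      by_cases hw0 : a w = 0
      · left
        by_cases hwY : w ∈ Y
        · show k' w.1 + b w = 0
          rw [h1 _ ((hY w).1 hwY), hbw, add_self_K]
        · show k' w.1 + b w = 0
          rw [h2 _ (haw ▸ hw0) (fun h0 => hwY ((hY w).2 h0)), hboff w hw0 hwY, add_zero]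
      · have h6 := h3 w.1 (haw ▸ hw0)
        have h7 := hba w hw0
        show k' w.1 + b w = 0 ∨ k' w.1 + b w = a w
        rw [← haw] at h6
        rcases h6 with h6 | h6 <;> rcases h7 with h7 | h7
        · left; rw [h6, h7, add_zero]
        · right; rw [h6, h7, zero_add]
        · right; rw [h6, h7, add_zero]
        · left; rw [h6, h7, add_self_K]) with hd | hd
    · rw [hd] at hsum
      have h6 := lift_zero hiso hP hQ hl hh hsum hse
      have h7 : k' = k := by
        funext v
        have h8 : k' v + k v = 0 := congrFun h6 v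
        have h9 : k' v + k v + k v = k v := by rw [h8, zero_add]
        rwa [add_assoc, add_self_K, add_zero] at h9
      rw [h7] at h4
      obtain ⟨Z', hZ', hSk⟩ := h4 hkz
      exact hfin Z' hZ' hSk
    · rw [hd] at hsum
      have h6 := lift_unique hiso hP hQ hl hh hsum hlift hse hue
      have h7 : k' + u = k := by
        rw [← h6]
        funext v
        show k' v + (k' v + k v) = k v
        rw [← add_assoc, add_self_K, zero_add]
      rw [h7] at h5
      obtain ⟨Z', hZ', hSk⟩ := h5 hkz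
      exact hfin Z' hZ' hSk

end

end Pool.Agent.H46.Q
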